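import Mathlib
import Pool.Agent.MP_494aff_an.pinch.St
import Pool.Agent.MP_494aff_an.fr.Mach

/-! A countable group that contains a free group `K` of rank two and embeds in an ultrapower of
`K` has the von Neumann algebra of the free group of countably infinite rank. -/

open Pool.Agent.MP_494aff_an

theorem Pool.Agent.Results.MP_494aff_an.NoWitness.result (U : Ultrafilter ℕ) (G : Type) [Group G]
    [Countable G] (K : Subgroup G) (hK : Nonempty (K ≃* FreeGroup (Fin 2)))
    (φ : G →* Filter.Germ (U : Filter ℕ) K) (hφ : Function.Injective φ) :
    Pinch.VNIso G (FreeGroup ℕ) :=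
  Fr.fullOf Hi.machX U G K hK φ hφ
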