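import Mathlib
import Pool.Agent.MP_494aff_an.Act

/-! A countable group with an existential copy of the free group of rank two whose Bernoulli shift
is not treeable, while another free measure preserving action is treeable. -/

open MeasureTheory Pool.Agent.MP_494aff_an

theorem Pool.Agent.Results.MP_494aff_an.NotStronglyTreeable.result (U : Ultrafilter ℕ)
    (hU : (U : Filter ℕ) ≤ Filter.cofinite) :
    ∃ (G : Type) (_ : Group G) (_ : Countable G),
      (∃ H : Subgroup G, Nonempty (H ≃* FreeGroup (Fin 2)) ∧ Existential U H) ∧
      (FreePmp (shift (G := G)) (Measure.infinitePi fun _ : G => coin) ∧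
        ¬ Treeable (shift (G := G)) (Measure.infinitePi fun _ : G => coin)) ∧
      ∃ (Y : Type) (_ : MeasurableSpace Y) (_ : StandardBorelSpace Y) (ν : Measure Y)
        (_ : IsProbabilityMeasure ν) (a : G → Y → Y), FreePmp a ν ∧ Treeable a ν := by
  have : Infinite (GG U) := Infinite.of_injective _ (sys hU).b_inj
  exact ⟨GG U, inferInstance, inferInstance, existential,
    ⟨⟨shift_one, shift_mul, shift_pres, shift_free⟩, not_treeable (sys hU)⟩,
    exists_treeable (sys hU)⟩
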