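import Mathlib
import Pool.Agent.MP_494aff_an.pinch.St2
import Pool.Agent.MP_494aff_an.pinch.Main2

/-! Towers of groups, among them all closed orientable surface groups of genus at least two,
have the von Neumann algebra of a free group. -/

open Pool.Agent.MP_494aff_an.Pinch

theorem Pool.Agent.Results.MP_494aff_an.Tower.result (G : Type) [Group G] (N : ℕ)
    (h : Tow G N) : VNIso G (FreeGroup (Fin N)) :=
  tower G N h
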